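import Pool.Agent.H76.CW.StmtB
import Pool.Agent.H71.CW.Wid

/-! `SPL`: good pieces can be split. -/

set_option autoImplicit false

open Set Pool.Agent.TK Pool.Agent.H71.VK

namespace Pool.Agent.CW

theorem pf_SPL (hULT : T_ULT) (hWGER : WGER) (hWGR : WGR) (hCON : T_CON) : T_SPL := by
  intro n c Sm G k hk π hπ hg
  by_contra hno
  push Not at hno
  have h1 : ∀ (σ : Pr) (S : List ℕ) (F : Tab) (x : ℕ), Vd c ((S, F, x, true) :: (σ ++ π)) →
      G.Nn (st c ((S, F, x, true) :: (σ ++ π))) ∨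
        G.Nn (st c ((S, F, x, false) :: (σ ++ π))) := by
    intro σ S F x hv
    by_cases h : G.Nn (st c ((S, F, x, true) :: (σ ++ π)))
    · exact Or.inl h
    · exact Or.inr (hno σ S F x hv h)
  have h2 := hULT n c Sm G π hπ hg h1
  have hI : Idl {A : Set ℕ | G.Nn A} :=
    { sub := fun A hA B hB => GS.Nn.mono hA hB
      un := fun A hA B hB => GS.Nn.union hA hB
      fin := fun A hA => G.nn_finite hA }
  have h3 : ∀ A : Set ℕ, Few c (k + 1) Aᶜ A →
      st c π ∩ A ∈ {A : Set ℕ | G.Nn A} ∨ st c π \ A ∈ {A : Set ℕ | G.Nn A} := by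
    intro A hA
    have h4 : Few c (k + 1) (st c π \ (st c π ∩ A)) (st c π ∩ A) := by
      obtain ⟨f, hf⟩ := hA
      refine ⟨f, fun a ha a' ha' he z hz => hf a ha.2 a' ha'.2 he z ?_⟩
      intro hzA
      exact hz.2 ⟨hz.1, hzA⟩
    rcases h2 (k + 1) (st c π ∩ A) inter_subset_left h4 with h | h
    · exact Or.inl h
    · right
      rw [diff_self_inter] at h
      exact h
  obtain ⟨R, hR, hR'⟩ := hWGR c {A : Set ℕ | G.Nn A} (st c π) hI
    (hWGER c n k G.bd hk {A : Set ℕ | G.Nn A} (st c π) hI hg h3)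
  exact hCON n c Sm G π hπ hg R hR hR'

end Pool.Agent.CW
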